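import Pool.Agent.P.MP_fd5ae1_an.LocM
import Pool.Agent.P.MP_fd5ae1_an.LocTan
import Pool.Agent.P.MP_fd5ae1_an.LimEx

set_option autoImplicit false

namespace Pool.Agent.Results.MP_fd5ae1_an.LocalLines

/-- If two length-measurable rectifiable plane sets meet almost every line of an open set `W` of
lines in the same number of points, then every part of their symmetric difference whose chords lie
in a closed subset of `W` with bounded angles has length zero. -/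
theorem result :
    ∀ C D : Set (EuclideanSpace ℝ (Fin 2)),
      MeasureTheory.NullMeasurableSet C (MeasureTheory.Measure.hausdorffMeasure 1) →
      MeasureTheory.NullMeasurableSet D (MeasureTheory.Measure.hausdorffMeasure 1) →
      (∃ f : ℕ → ℝ → EuclideanSpace ℝ (Fin 2),
        (∀ i, ContinuousOn (f i) (Set.Icc 0 1) ∧ Set.InjOn (f i) (Set.Icc 0 1)) ∧
        (∑' i, eVariationOn (f i) (Set.Icc 0 1)) ≠ ⊤ ∧
        C ⊆ ⋃ i, f i '' Set.Icc 0 1) →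
      (∃ g : ℕ → ℝ → EuclideanSpace ℝ (Fin 2),
        (∀ i, ContinuousOn (g i) (Set.Icc 0 1) ∧ Set.InjOn (g i) (Set.Icc 0 1)) ∧
        (∑' i, eVariationOn (g i) (Set.Icc 0 1)) ≠ ⊤ ∧
        D ⊆ ⋃ i, g i '' Set.Icc 0 1) →
      ∀ W K : Set (ℝ × ℝ), IsOpen W → IsClosed K → (∃ M : ℝ, ∀ p ∈ K, |p.1| ≤ M) → K ⊆ W →
      (∀ᵐ p : ℝ × ℝ ∂MeasureTheory.volume, p ∈ W →
        (C ∩ {x : EuclideanSpace ℝ (Fin 2) |
            x.ofLp 0 * Real.cos p.1 + x.ofLp 1 * Real.sin p.1 = p.2}).encard =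
        (D ∩ {x : EuclideanSpace ℝ (Fin 2) |
            x.ofLp 0 * Real.cos p.1 + x.ofLp 1 * Real.sin p.1 = p.2}).encard) →
      ∀ E : Set (EuclideanSpace ℝ (Fin 2)), E ⊆ (C \ D) ∪ (D \ C) →
      (∀ x ∈ E, ∀ y ∈ E, ∃ p ∈ K,
        x.ofLp 0 * Real.cos p.1 + x.ofLp 1 * Real.sin p.1 = p.2 ∧
        y.ofLp 0 * Real.cos p.1 + y.ofLp 1 * Real.sin p.1 = p.2) →
      MeasureTheory.Measure.hausdorffMeasure 1 E = 0 := by
  rintro C D hC hD hf hg W K hW hK ⟨M, hM⟩ hKW h E hE hch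
  have hcov : E ⊆ ⋃ n : ℕ, E ∩ {x | |x.ofLp 0| + |x.ofLp 1| ≤ n} := by
    intro x hx
    obtain ⟨n, hn⟩ := exists_nat_ge (|x.ofLp 0| + |x.ofLp 1|)
    exact Set.mem_iUnion.mpr ⟨n, hx, hn⟩
  refine MeasureTheory.measure_mono_null hcov (MeasureTheory.measure_iUnion_null fun n => ?_)
  refine Pool.Agent.P.MP_fd5ae1_an.Loc.main_loc C D hC hD hf hg W
    (K ∩ Set.Icc (-M) M ×ˢ Set.Icc (-(n : ℝ)) n) hW
    ((isCompact_Icc.prod isCompact_Icc).inter_left hK) (Set.inter_subset_left.trans hKW) h _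
    (Set.inter_subset_left.trans hE) fun x hx y hy => ?_
  obtain ⟨p, hp, e1, e2⟩ := hch x hx.1 y hy.1
  refine ⟨p, ⟨hp, abs_le.mp (hM p hp), abs_le.mp ?_⟩, e1, e2⟩
  rw [← e1]
  refine (abs_add_le _ _).trans (le_trans (add_le_add ?_ ?_) hx.2)
  · rw [abs_mul]; exact mul_le_of_le_one_right (abs_nonneg _) (Real.abs_cos_le_one _)
  · rw [abs_mul]; exact mul_le_of_le_one_right (abs_nonneg _) (Real.abs_sin_le_one _)

/-- Side theorem, not the hand-in: tangent form, derived from `result`. Along any curve, the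
points of the symmetric difference whose tangent line is in `W` form a set of length zero. -/
theorem tangent :
    ∀ C D : Set (EuclideanSpace ℝ (Fin 2)),
      MeasureTheory.NullMeasurableSet C (MeasureTheory.Measure.hausdorffMeasure 1) →
      MeasureTheory.NullMeasurableSet D (MeasureTheory.Measure.hausdorffMeasure 1) →
      (∃ f : ℕ → ℝ → EuclideanSpace ℝ (Fin 2),
        (∀ i, ContinuousOn (f i) (Set.Icc 0 1) ∧ Set.InjOn (f i) (Set.Icc 0 1)) ∧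
        (∑' i, eVariationOn (f i) (Set.Icc 0 1)) ≠ ⊤ ∧
        C ⊆ ⋃ i, f i '' Set.Icc 0 1) →
      (∃ g : ℕ → ℝ → EuclideanSpace ℝ (Fin 2),
        (∀ i, ContinuousOn (g i) (Set.Icc 0 1) ∧ Set.InjOn (g i) (Set.Icc 0 1)) ∧
        (∑' i, eVariationOn (g i) (Set.Icc 0 1)) ≠ ⊤ ∧
        D ⊆ ⋃ i, g i '' Set.Icc 0 1) →
      ∀ W : Set (ℝ × ℝ), IsOpen W →
      (∀ᵐ p : ℝ × ℝ ∂MeasureTheory.volume, p ∈ W →
        (C ∩ {x : EuclideanSpace ℝ (Fin 2) |
            x.ofLp 0 * Real.cos p.1 + x.ofLp 1 * Real.sin p.1 = p.2}).encard =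
        (D ∩ {x : EuclideanSpace ℝ (Fin 2) |
            x.ofLp 0 * Real.cos p.1 + x.ofLp 1 * Real.sin p.1 = p.2}).encard) →
      ∀ γ γ' : ℝ → EuclideanSpace ℝ (Fin 2),
      MeasureTheory.Measure.hausdorffMeasure 1
        (γ '' {t | γ t ∈ (C \ D) ∪ (D \ C) ∧ HasDerivAt γ (γ' t) t ∧ γ' t ≠ 0 ∧ ∃ p ∈ W,
          (γ' t).ofLp 0 * Real.cos p.1 + (γ' t).ofLp 1 * Real.sin p.1 = 0 ∧
          (γ t).ofLp 0 * Real.cos p.1 + (γ t).ofLp 1 * Real.sin p.1 = p.2}) = 0 :=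
  fun C D hC hD hf hg W hW h => Pool.Agent.P.MP_fd5ae1_an.Loc.tan_null hW
    fun K hK hKW => result C D hC hD hf hg W K hW hK.isClosed
      ((hK.image continuous_fst.abs).bddAbove.imp fun _ hM p hp => hM ⟨p, hp, rfl⟩) hKW h

/-- Side theorem, not the hand-in: the limited-angle case, derived from `result`. -/
theorem limited_angle :
    ∀ C D : Set (EuclideanSpace ℝ (Fin 2)),
      MeasureTheory.NullMeasurableSet C (MeasureTheory.Measure.hausdorffMeasure 1) →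
      MeasureTheory.NullMeasurableSet D (MeasureTheory.Measure.hausdorffMeasure 1) →
      (∃ f : ℕ → ℝ → EuclideanSpace ℝ (Fin 2),
        (∀ i, ContinuousOn (f i) (Set.Icc 0 1) ∧ Set.InjOn (f i) (Set.Icc 0 1)) ∧
        (∑' i, eVariationOn (f i) (Set.Icc 0 1)) ≠ ⊤ ∧
        C ⊆ ⋃ i, f i '' Set.Icc 0 1) →
      (∃ g : ℕ → ℝ → EuclideanSpace ℝ (Fin 2),
        (∀ i, ContinuousOn (g i) (Set.Icc 0 1) ∧ Set.InjOn (g i) (Set.Icc 0 1)) ∧
        (∑' i, eVariationOn (g i) (Set.Icc 0 1)) ≠ ⊤ ∧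
        D ⊆ ⋃ i, g i '' Set.Icc 0 1) →
      ∀ Th K : Set ℝ, IsOpen Th → IsCompact K → K ⊆ Th →
      (∀ᵐ p : ℝ × ℝ ∂MeasureTheory.volume, p.1 ∈ Th →
        (C ∩ {x : EuclideanSpace ℝ (Fin 2) |
            x.ofLp 0 * Real.cos p.1 + x.ofLp 1 * Real.sin p.1 = p.2}).encard =
        (D ∩ {x : EuclideanSpace ℝ (Fin 2) |
            x.ofLp 0 * Real.cos p.1 + x.ofLp 1 * Real.sin p.1 = p.2}).encard) →
      ∀ E : Set (EuclideanSpace ℝ (Fin 2)), E ⊆ (C \ D) ∪ (D \ C) →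
      (∀ x ∈ E, ∀ y ∈ E, ∃ θ ∈ K,
        x.ofLp 0 * Real.cos θ + x.ofLp 1 * Real.sin θ =
        y.ofLp 0 * Real.cos θ + y.ofLp 1 * Real.sin θ) →
      MeasureTheory.Measure.hausdorffMeasure 1 E = 0 := by
  intro C D hC hD hf hg Th K hTh hK hKT h E hE hch
  refine result C D hC hD hf hg (Th ×ˢ Set.univ) (K ×ˢ Set.univ) (hTh.prod isOpen_univ)
    (hK.isClosed.prod isClosed_univ)
    ((hK.image continuous_abs).bddAbove.imp fun _ hM p hp => hM ⟨p.1, hp.1, rfl⟩)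
    (Set.prod_mono hKT Set.Subset.rfl) (h.mono fun p hp hW => hp hW.1) E hE fun x hx y hy => ?_
  obtain ⟨θ, hθ, e⟩ := hch x hx y hy
  exact ⟨(θ, x.ofLp 0 * Real.cos θ + x.ofLp 1 * Real.sin θ), ⟨hθ, trivial⟩, rfl, e.symm⟩

/-- Side theorem, not the hand-in: the case of all lines is the question for measurable sets;
an instance of `result`. -/
theorem posed :
    ∀ C D : Set (EuclideanSpace ℝ (Fin 2)),
      MeasureTheory.NullMeasurableSet C (MeasureTheory.Measure.hausdorffMeasure 1) →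
      MeasureTheory.NullMeasurableSet D (MeasureTheory.Measure.hausdorffMeasure 1) →
      (∃ f : ℕ → ℝ → EuclideanSpace ℝ (Fin 2),
        (∀ i, ContinuousOn (f i) (Set.Icc 0 1) ∧ Set.InjOn (f i) (Set.Icc 0 1)) ∧
        (∑' i, eVariationOn (f i) (Set.Icc 0 1)) ≠ ⊤ ∧
        C ⊆ ⋃ i, f i '' Set.Icc 0 1) →
      (∃ g : ℕ → ℝ → EuclideanSpace ℝ (Fin 2),
        (∀ i, ContinuousOn (g i) (Set.Icc 0 1) ∧ Set.InjOn (g i) (Set.Icc 0 1)) ∧
        (∑' i, eVariationOn (g i) (Set.Icc 0 1)) ≠ ⊤ ∧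
        D ⊆ ⋃ i, g i '' Set.Icc 0 1) →
      (∀ᵐ p : ℝ × ℝ ∂MeasureTheory.volume,
        (C ∩ {x : EuclideanSpace ℝ (Fin 2) |
            x.ofLp 0 * Real.cos p.1 + x.ofLp 1 * Real.sin p.1 = p.2}).encard =
        (D ∩ {x : EuclideanSpace ℝ (Fin 2) |
            x.ofLp 0 * Real.cos p.1 + x.ofLp 1 * Real.sin p.1 = p.2}).encard) →
      MeasureTheory.Measure.hausdorffMeasure 1 ((C \ D) ∪ (D \ C)) = 0 := by
  intro C D hC hD hf hg h
  refine result C D hC hD hf hg Set.univ (Set.Icc (-Real.pi) Real.pi ×ˢ Set.univ) isOpen_univ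
    (isClosed_Icc.prod isClosed_univ) ⟨Real.pi, fun p hp => abs_le.mpr hp.1⟩ (Set.subset_univ _)
    (h.mono fun p hp _ => hp) _ Set.Subset.rfl fun x _ y _ => ?_
  obtain ⟨θ, hθ, e⟩ :=
    Pool.Agent.P.MP_fd5ae1_an.two_points_line (x.ofLp 0) (x.ofLp 1) (y.ofLp 0) (y.ofLp 1)
  exact ⟨(θ, x.ofLp 0 * Real.cos θ + x.ofLp 1 * Real.sin θ), ⟨hθ, trivial⟩, rfl, e.symm⟩

/-- Side theorem, not the hand-in: a condition on `E` is needed. Two sides of a square and the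
other two sides have equal counts for all angles in a quarter turn. -/
theorem needed :
    ∃ C D : Set (EuclideanSpace ℝ (Fin 2)),
      MeasureTheory.NullMeasurableSet C (MeasureTheory.Measure.hausdorffMeasure 1) ∧
      MeasureTheory.NullMeasurableSet D (MeasureTheory.Measure.hausdorffMeasure 1) ∧
      (∃ f : ℕ → ℝ → EuclideanSpace ℝ (Fin 2),
        (∀ i, ContinuousOn (f i) (Set.Icc 0 1) ∧ Set.InjOn (f i) (Set.Icc 0 1)) ∧
        (∑' i, eVariationOn (f i) (Set.Icc 0 1)) ≠ ⊤ ∧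
        C ∪ D ⊆ ⋃ i, f i '' Set.Icc 0 1) ∧
      (∀ θ t : ℝ, 0 < θ ∧ θ < Real.pi / 2 →
        (C ∩ {x : EuclideanSpace ℝ (Fin 2) |
            x.ofLp 0 * Real.cos θ + x.ofLp 1 * Real.sin θ = t}).encard =
        (D ∩ {x : EuclideanSpace ℝ (Fin 2) |
            x.ofLp 0 * Real.cos θ + x.ofLp 1 * Real.sin θ = t}).encard) ∧
      MeasureTheory.Measure.hausdorffMeasure 1 ((C \ D) ∪ (D \ C)) ≠ 0 :=
  Pool.Agent.P.MP_fd5ae1_an.square_example

end Pool.Agent.Results.MP_fd5ae1_an.LocalLines
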